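import Pool.Agent.Helper62.WB.Goals

/-!
# PACKET WB-CL (MP_08df5f_al): the closure of the group and the extension of the endomorphism
-/

set_option autoImplicit false

namespace Pool.Agent.Helper12.WB

open Pool.Agent.Helper62.WB

variable {T : RTree} {Γ : Type} [Group Γ]

theorem act_one_step (a : TAct T Γ) (n : ℕ) (g : Γ) (h : a.act (n + 1) g = 1) :
    a.act n g = 1 := by
  apply Equiv.ext
  intro v
  obtain ⟨w, rfl⟩ := T.par_surj n v
  rw [← a.par_act, h]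
  rfl

theorem act_one_mono (a : TAct T Γ) {k n : ℕ} (hkn : k ≤ n) (g : Γ) (h : a.act n g = 1) :
    a.act k g = 1 := by
  induction hkn with
  | refl => exact h
  | step _ ih => exact ih (act_one_step a _ g h)

theorem act_eq_mono (a : TAct T Γ) {k n : ℕ} (hkn : k ≤ n) (g h : Γ)
    (e : a.act n g = a.act n h) : a.act k g = a.act k h := by
  have h1 : a.act n (g⁻¹ * h) = 1 := by rw [map_mul, map_inv, e, inv_mul_cancel]
  have h2 := act_one_mono a hkn _ h1
  rw [map_mul, map_inv, inv_mul_eq_one] at h2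
  exact h2

/-- the two sequences are simultaneous limits of `α g` and `β g` -/
def Rel (a : TAct T Γ) (α β : Γ →* Γ) (δ δ' : ∀ n, Equiv.Perm (T.L n)) : Prop :=
  ∀ n, ∃ g : Γ, (∀ k, k ≤ n → δ k = a.act k (α g)) ∧ (∀ k, k ≤ n → δ' k = a.act k (β g))

theorem Rel.symm {a : TAct T Γ} {α β : Γ →* Γ} {δ δ' : ∀ n, Equiv.Perm (T.L n)}
    (h : Rel a α β δ δ') : Rel a β α δ' δ := fun n => by
  obtain ⟨g, h1, h2⟩ := h n
  exact ⟨g, h2, h1⟩

theorem Rel.mul {a : TAct T Γ} {α β : Γ →* Γ} {δ δ' ε ε' : ∀ n, Equiv.Perm (T.L n)}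
    (h : Rel a α β δ δ') (h' : Rel a α β ε ε') :
    Rel a α β (fun n => δ n * ε n) (fun n => δ' n * ε' n) := fun n => by
  obtain ⟨g, h1, h2⟩ := h n
  obtain ⟨g', h1', h2'⟩ := h' n
  exact ⟨g * g', fun k hk => by rw [map_mul, map_mul, ← h1 k hk, ← h1' k hk],
    fun k hk => by rw [map_mul, map_mul, ← h2 k hk, ← h2' k hk]⟩

theorem Rel.uniq {a : TAct T Γ} {α β : Γ →* Γ}
    (hm : ∀ n, ∃ m, ∀ g, a.act m (α g) = 1 → a.act n (β g) = 1)
    {δ δ' δ'' : ∀ n, Equiv.Perm (T.L n)}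
    (h : Rel a α β δ δ') (h' : Rel a α β δ δ'') : δ' = δ'' := by
  funext n
  obtain ⟨m, hm⟩ := hm n
  obtain ⟨g, h1, h2⟩ := h (max n m)
  obtain ⟨g', h1', h2'⟩ := h' (max n m)
  have e1 : a.act m (α (g⁻¹ * g')) = 1 := by
    rw [map_mul, map_inv, map_mul, map_inv, ← h1 m (le_max_right _ _),
      ← h1' m (le_max_right _ _), inv_mul_cancel]
  have e2 := hm _ e1
  rw [map_mul, map_inv, map_mul, map_inv, inv_mul_eq_one] at e2
  rw [h2 n (le_max_left _ _), h2' n (le_max_left _ _), e2]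

theorem Rel.exists {a : TAct T Γ} {α β : Γ →* Γ}
    (hm : ∀ n, ∃ m, ∀ g, a.act m (α g) = 1 → a.act n (β g) = 1)
    {δ : ∀ n, Equiv.Perm (T.L n)} (hδ : ∀ n, ∃ g : Γ, ∀ k, k ≤ n → δ k = a.act k (α g)) :
    ∃ δ', Rel a α β δ δ' := by
  choose m hm using hm
  choose G hG using hδ
  refine ⟨fun n => a.act n (β (G (m n))), fun n => ?_⟩
  refine ⟨G (max n (m n)), fun k hk => hG _ k (le_trans hk (le_max_left _ _)), fun k hk => ?_⟩
  show a.act k (β (G (m k))) = a.act k (β (G (max n (m n))))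
  rcases le_total (m k) (m n) with h | h
  · have e1 : a.act (m k) (α ((G (m k))⁻¹ * G (max n (m n)))) = 1 := by
      rw [map_mul, map_inv, map_mul, map_inv, ← hG _ (m k) le_rfl,
        ← hG _ (m k) (le_trans h (le_max_right _ _)), inv_mul_cancel]
    have e2 := hm _ _ e1
    rw [map_mul, map_inv, map_mul, map_inv, inv_mul_eq_one] at e2
    exact e2
  · have e1 : a.act (m n) (α ((G (m k))⁻¹ * G (max n (m n)))) = 1 := by
      rw [map_mul, map_inv, map_mul, map_inv, ← hG _ (m n) h,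
        ← hG _ (m n) (le_max_right _ _), inv_mul_cancel]
    have e2 := act_one_mono a hk _ (hm _ _ e1)
    rw [map_mul, map_inv, map_mul, map_inv, inv_mul_eq_one] at e2
    exact e2

/-- the closure of `Γ` -/
def clo (a : TAct T Γ) : Subgroup (∀ n, Equiv.Perm (T.L n)) where
  carrier := {δ | ∀ n, ∃ g : Γ, ∀ k, k ≤ n → δ k = a.act k g}
  one_mem' := fun n => ⟨1, fun k _ => by rw [map_one]; rfl⟩
  mul_mem' := by
    intro x y hx hy n
    obtain ⟨g, hg⟩ := hx n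
    obtain ⟨h, hh⟩ := hy n
    exact ⟨g * h, fun k hk => by rw [Pi.mul_apply, map_mul, hg k hk, hh k hk]⟩
  inv_mem' := by
    intro x hx n
    obtain ⟨g, hg⟩ := hx n
    exact ⟨g⁻¹, fun k hk => by rw [Pi.inv_apply, map_inv, hg k hk]⟩

/-- the action of the closure -/
def clAct (a : TAct T Γ) : TAct T (clo a) where
  act n := (Pi.evalMonoidHom (fun n => Equiv.Perm (T.L n)) n).comp (clo a).subtype
  par_act := by
    intro n δ v
    obtain ⟨g, hg⟩ := δ.2 (n + 1)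
    show T.par n (δ.1 (n + 1) v) = δ.1 n (T.par n v)
    rw [hg (n + 1) le_rfl, hg n (Nat.le_succ n), a.par_act]

theorem clAct_apply (a : TAct T Γ) (n : ℕ) (δ : clo a) : (clAct a).act n δ = δ.1 n := rfl

/-- the embedding in the closure -/
def clEmb (a : TAct T Γ) : Γ →* clo a where
  toFun g := ⟨fun n => a.act n g, fun _ => ⟨g, fun _ _ => rfl⟩⟩
  map_one' := by
    apply Subtype.ext
    funext n
    exact map_one _
  map_mul' g h := by
    apply Subtype.ext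
    funext n
    exact map_mul _ _ _

theorem clEmb_apply (a : TAct T Γ) (n : ℕ) (g : Γ) : (clEmb a g).1 n = a.act n g := rfl

theorem clAct_wb (a : TAct T Γ) (h : a.WeaklyBranch) : (clAct a).WeaklyBranch where
  faithful δ hδ := by
    apply Subtype.ext
    funext n
    exact hδ n
  trans n v w := by
    obtain ⟨g, hg⟩ := h.trans n v w
    exact ⟨clEmb a g, hg⟩
  rist n v := by
    obtain ⟨g, hg, hg1⟩ := h.rist n v
    refine ⟨clEmb a g, fun k w hw => hg k w hw, fun e => hg1 (h.faithful g fun m => ?_)⟩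
    have : (clEmb a g).1 m = (1 : clo a).1 m := by rw [e]
    exact this

theorem cl : StmtCL := by
  intro T Γ _ a hwb σ hdense h1 h2
  have hα : ∀ n, ∃ m, ∀ g, a.act m (MonoidHom.id Γ g) = 1 → a.act n (σ g) = 1 := h1
  have hβ : ∀ n, ∃ m, ∀ g, a.act m (σ g) = 1 → a.act n (MonoidHom.id Γ g) = 1 := h2
  have hD : ∀ (δ : clo a) (n : ℕ), ∃ g : Γ, ∀ k, k ≤ n → δ.1 k = a.act k (σ g) := by
    intro δ n
    obtain ⟨g, hg⟩ := δ.2 n
    obtain ⟨h, hh⟩ := hdense n g
    exact ⟨h, fun k hk => by rw [hg k hk]; exact (act_eq_mono a hk _ _ hh).symm⟩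
  have ex1 : ∀ δ : clo a, ∃ δ' : clo a, Rel a (MonoidHom.id Γ) σ δ.1 δ'.1 := by
    intro δ
    obtain ⟨δ', hδ'⟩ := Rel.exists hα (δ := δ.1) δ.2
    refine ⟨⟨δ', fun n => ?_⟩, hδ'⟩
    obtain ⟨g, _, hg⟩ := hδ' n
    exact ⟨σ g, hg⟩
  have ex2 : ∀ δ : clo a, ∃ δ' : clo a, Rel a σ (MonoidHom.id Γ) δ.1 δ'.1 := by
    intro δ
    obtain ⟨δ', hδ'⟩ := Rel.exists hβ (δ := δ.1) (hD δ)
    refine ⟨⟨δ', fun n => ?_⟩, hδ'⟩
    obtain ⟨g, _, hg⟩ := hδ' n
    exact ⟨g, hg⟩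
  choose F hF using ex1
  choose F' hF' using ex2
  have l1 : ∀ δ, F' (F δ) = δ := by
    intro δ
    apply Subtype.ext
    exact Rel.uniq hβ (hF' (F δ)) (hF δ).symm
  have l2 : ∀ δ, F (F' δ) = δ := by
    intro δ
    apply Subtype.ext
    exact Rel.uniq hα (hF (F' δ)) (hF' δ).symm
  have l3 : ∀ δ ε, F (δ * ε) = F δ * F ε := by
    intro δ ε
    apply Subtype.ext
    exact Rel.uniq hα (hF (δ * ε)) ((hF δ).mul (hF ε))
  let τ : clo a ≃* clo a :=
    { toFun := F, invFun := F', left_inv := l1, right_inv := l2, map_mul' := l3 }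
  refine ⟨clo a, inferInstance, clAct a, clEmb a, τ, clAct_wb a hwb, fun n g => rfl,
    fun n d => ?_, fun g => ?_, fun n => ?_, fun n => ?_⟩
  · obtain ⟨g, hg⟩ := d.2 n
    exact ⟨g, hg n le_rfl⟩
  · apply Subtype.ext
    exact Rel.uniq hα (hF (clEmb a g)) (fun n => ⟨g, fun _ _ => rfl, fun _ _ => rfl⟩)
  · obtain ⟨m, hm⟩ := h1 n
    refine ⟨m, fun d hd => ?_⟩
    obtain ⟨g, hg1, hg2⟩ := hF d (max n m)
    show (F d).1 n = 1
    rw [hg2 n (le_max_left _ _)]
    apply hm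
    have := hg1 m (le_max_right _ _)
    rw [MonoidHom.id_apply] at this
    rw [← this]
    exact hd
  · obtain ⟨m, hm⟩ := h2 n
    refine ⟨m, fun d hd => ?_⟩
    obtain ⟨g, hg1, hg2⟩ := hF' d (max n m)
    show (F' d).1 n = 1
    rw [hg2 n (le_max_left _ _)]
    apply hm
    rw [MonoidHom.id_apply, ← hg1 m (le_max_right _ _)]
    exact hd

end Pool.Agent.Helper12.WB
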